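import Pool.Agent.H663R2.AbSqMain

/-!
Abelian squares under the morphism `x ↦ ∏_j j ^ (a x j)` into a small alphabet.
-/

set_option autoImplicit false

namespace Pool.Agent.Y243.AbSq

open Pool.Agent.H663R2.AbSq Finset

section Img

variable {α : Type} [Fintype α] [DecidableEq α] {k : ℕ}

/-- image word of a letter -/
def blk (a : α → Fin k → ℕ) (x : α) : List (Fin k) :=
  (List.finRange k).flatMap (fun j => List.replicate (a x j) j)

/-- image word -/
def img (a : α → Fin k → ℕ) (w : List α) : List (Fin k) := w.flatMap (blk a)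

omit [Fintype α] [DecidableEq α] in
lemma parikh_blk (a : α → Fin k → ℕ) (x : α) (j : Fin k) : parikh (blk a x) j = a x j := by
  unfold blk
  rw [parikh_flatMap]
  simp only [parikh_replicate]
  rw [← List.ofFn_eq_map, List.sum_ofFn]
  simp

omit [Fintype α] [DecidableEq α] in
lemma length_blk (a : α → Fin k → ℕ) (x : α) : (blk a x).length = ∑ j, a x j := by
  unfold blk
  rw [List.length_flatMap]
  simp only [List.length_replicate]
  rw [← List.ofFn_eq_map, List.sum_ofFn]

lemma parikh_img (a : α → Fin k → ℕ) (w : List α) (j : Fin k) :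
    parikh (img a w) j = ∑ x, parikh w x * a x j := by
  unfold img
  rw [parikh_flatMap]
  simp only [parikh_blk]
  rw [Finset.sum_list_map_count]
  simp only [smul_eq_mul]
  apply Finset.sum_subset (Finset.subset_univ _)
  intro x _ hx
  rw [List.mem_toFinset] at hx
  rw [List.count_eq_zero_of_not_mem hx, Nat.zero_mul]

omit [Fintype α] [DecidableEq α] in
lemma length_img_le (a : α → Fin k → ℕ) {M : ℕ} (ha : ∀ x j, a x j ≤ M) (w : List α) :
    (img a w).length ≤ k * M * w.length := by
  unfold img
  induction w with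
  | nil => simp
  | cons x w ih =>
    rw [List.flatMap_cons, List.length_append, length_blk, List.length_cons]
    have h1 : ∑ j, a x j ≤ k * M := by
      calc ∑ j, a x j ≤ ∑ _j : Fin k, M := Finset.sum_le_sum (fun j _ => ha x j)
        _ = k * M := by simp
    calc ∑ j, a x j + (List.flatMap (blk a) w).length ≤ k * M + k * M * w.length :=
          Nat.add_le_add h1 ih
      _ = k * M * (w.length + 1) := by ring

omit [Fintype α] [DecidableEq α] in
lemma img_append (a : α → Fin k → ℕ) (u v : List α) : img a (u ++ v) = img a u ++ img a v := by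
  unfold img
  rw [List.flatMap_append]

omit [Fintype α] [DecidableEq α] in
lemma img_infix (a : α → Fin k → ℕ) {s w : List α} (h : s <:+: w) : img a s <:+: img a w := by
  obtain ⟨u, v, rfl⟩ := h
  exact ⟨img a u, img a v, by rw [img_append, img_append]⟩

lemma square_img (a : α → Fin k → ℕ) (hk : 1 ≤ k) (ha : ∀ x j, 1 ≤ a x j) {s : List α}
    (h : IsAbelianSquare s) : IsAbelianSquare (img a s) := by
  obtain ⟨h0, u, v, rfl, huv⟩ := h
  refine ⟨?_, img a u, img a v, img_append a u v, ?_⟩
  · intro h1
    obtain ⟨x, t, hx⟩ := List.exists_cons_of_ne_nil h0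
    rw [hx] at h1
    unfold img at h1
    rw [List.flatMap_cons, List.append_eq_nil_iff] at h1
    have h2 := length_blk a x
    rw [h1.1, List.length_nil] at h2
    have h3 : a x ⟨0, hk⟩ ≤ ∑ j, a x j :=
      Finset.single_le_sum (f := fun j => a x j) (fun _ _ => Nat.zero_le _) (Finset.mem_univ _)
    have h4 := ha x ⟨0, hk⟩
    omega
  · funext j
    rw [parikh_img, parikh_img, huv]

lemma class_img (a : α → Fin k → ℕ) (hk : 1 ≤ k) (ha : ∀ x j, 1 ≤ a x j) {w : List α}
    {f : α → ℕ} (hf : f ∈ squareClasses w) :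
    (fun j => ∑ x, f x * a x j) ∈ squareClasses (img a w) := by
  obtain ⟨s, h1, h2, rfl⟩ := hf
  refine ⟨img a s, img_infix a h1, square_img a hk ha h2, ?_⟩
  funext j
  exact parikh_img a s j

end Img

section Count

variable {α : Type} [Fintype α] [DecidableEq α] {k M : ℕ}

/-- One nontrivial linear equation has at most `M ^ (|α| - 1)` solutions in `{0, ..., M-1}^α`. -/
lemma card_eq_le (d : α → ℤ) (hd : d ≠ 0) (c : ℤ) :
    M * (univ.filter fun b : α → Fin M => ∑ x, d x * ((b x : ℕ) : ℤ) = c).card ≤
      M ^ Fintype.card α := by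
  obtain ⟨x0, hx0⟩ : ∃ x0, d x0 ≠ 0 := by
    by_contra h
    push Not at h
    exact hd (funext h)
  have h1 : ((univ : Finset (Fin M)) ×ˢ
      (univ.filter fun b : α → Fin M => ∑ x, d x * ((b x : ℕ) : ℤ) = c)).card ≤
      (univ : Finset (α → Fin M)).card := by
    apply Finset.card_le_card_of_injOn (fun p => Function.update p.2 x0 p.1)
    · intro p _
      exact Finset.mem_coe.2 (Finset.mem_univ _)
    · rintro ⟨t, b⟩ hp ⟨t', b'⟩ hp' heq
      simp only [Finset.coe_product, Set.mem_prod, Finset.mem_coe, Finset.mem_filter,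
        Finset.mem_univ, true_and] at hp hp'
      simp only at heq
      have ht : t = t' := by
        have := congrFun heq x0
        simpa using this
      have hoff : ∀ x, x ≠ x0 → b x = b' x := by
        intro x hx
        have := congrFun heq x
        rwa [Function.update_of_ne hx, Function.update_of_ne hx] at this
      have hx : d x0 * ((b x0 : ℕ) : ℤ) = d x0 * ((b' x0 : ℕ) : ℤ) := by
        have e1 := hp
        have e2 := hp'
        rw [← Finset.add_sum_erase _ _ (Finset.mem_univ x0)] at e1 e2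
        have e3 : ∑ x ∈ univ.erase x0, d x * ((b x : ℕ) : ℤ) =
            ∑ x ∈ univ.erase x0, d x * ((b' x : ℕ) : ℤ) := by
          apply Finset.sum_congr rfl
          intro x hx
          rw [hoff x (Finset.ne_of_mem_erase hx)]
        linarith
      have hb : b x0 = b' x0 := by
        have := mul_left_cancel₀ hx0 hx
        apply Fin.ext
        exact_mod_cast this
      have hbb : b = b' := by
        funext x
        by_cases h : x = x0
        · rw [h, hb]
        · exact hoff x h
      rw [ht, hbb]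
  rw [Finset.card_product, Finset.card_univ, Finset.card_univ, Fintype.card_fin,
    Fintype.card_fun, Fintype.card_fin] at h1
  exact h1

/-- The weights of the letters. -/
def wt (b : Fin k → α → Fin M) (x : α) (j : Fin k) : ℕ := (b j x : ℕ) + 1

/-- Two different vectors collide for at most a proportion `M ^ (-k)` of the weights. -/
lemma card_collide_le {f f' : α → ℕ} (h : f ≠ f') :
    M ^ k * (univ.filter fun b : Fin k → α → Fin M =>
      (fun j => ∑ x, f x * wt b x j) = (fun j => ∑ x, f' x * wt b x j)).card ≤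
      Fintype.card (Fin k → α → Fin M) := by
  set d : α → ℤ := fun x => (f x : ℤ) - f' x with hd
  have hd0 : d ≠ 0 := by
    intro h0
    apply h
    funext x
    have := congrFun h0 x
    simp only [hd, Pi.zero_apply, sub_eq_zero] at this
    exact_mod_cast this
  set A : Finset (α → Fin M) :=
    univ.filter fun b : α → Fin M => ∑ x, d x * ((b x : ℕ) : ℤ) = - ∑ x, d x with hA
  have h1 : (univ.filter fun b : Fin k → α → Fin M =>
      (fun j => ∑ x, f x * wt b x j) = (fun j => ∑ x, f' x * wt b x j)) ⊆
      Fintype.piFinset (fun _ : Fin k => A) := by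
    intro b hb
    rw [Finset.mem_filter] at hb
    rw [Fintype.mem_piFinset]
    intro j
    rw [hA, Finset.mem_filter]
    refine ⟨Finset.mem_univ _, ?_⟩
    have h2 := congrFun hb.2 j
    simp only [wt] at h2
    have h3 : ∑ x, (f x : ℤ) * (((b j x : ℕ) : ℤ) + 1) =
        ∑ x, (f' x : ℤ) * (((b j x : ℕ) : ℤ) + 1) := by exact_mod_cast h2
    have h4 : ∑ x, d x * ((b j x : ℕ) : ℤ) + ∑ x, d x = 0 := by
      rw [← Finset.sum_add_distrib]
      have : ∀ x, d x * ((b j x : ℕ) : ℤ) + d x =
          (f x : ℤ) * (((b j x : ℕ) : ℤ) + 1) - (f' x : ℤ) * (((b j x : ℕ) : ℤ) + 1) := by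
        intro x
        simp only [hd]
        ring
      rw [Finset.sum_congr rfl (fun x _ => this x), Finset.sum_sub_distrib, h3, sub_self]
    linarith
  have h2 := Finset.card_le_card h1
  rw [Fintype.card_piFinset_const] at h2
  have h3 := card_eq_le (M := M) d hd0 (- ∑ x, d x)
  calc M ^ k * _ ≤ M ^ k * A.card ^ k := Nat.mul_le_mul_left _ h2
    _ = (M * A.card) ^ k := by rw [mul_pow]
    _ ≤ (M ^ Fintype.card α) ^ k := Nat.pow_le_pow_left h3 k
    _ = Fintype.card (Fin k → α → Fin M) := by
        rw [Fintype.card_fun, Fintype.card_fun, Fintype.card_fin, Fintype.card_fin]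

/-- A map with few colliding pairs has a large image. -/
lemma card_le_image_add {β γ : Type} [DecidableEq β] [DecidableEq γ] (S : Finset β) (F : β → γ) :
    S.card ≤ (S.image F).card + (S.offDiag.filter fun p => F p.1 = F p.2).card := by
  classical
  rcases S.eq_empty_or_nonempty with h0 | h0
  · rw [h0]
    simp
  obtain ⟨s0, _⟩ := h0
  have : Nonempty β := ⟨s0⟩
  have hrep : ∀ y, ∃ s, y ∈ S.image F → s ∈ S ∧ F s = y := by
    intro y
    by_cases hy : y ∈ S.image F
    · obtain ⟨s, h1, h2⟩ := Finset.mem_image.1 hy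
      exact ⟨s, fun _ => ⟨h1, h2⟩⟩
    · exact ⟨s0, fun h => absurd h hy⟩
  choose rep hrep' using hrep
  set R := (S.image F).image rep with hR
  have hRS : R ⊆ S := by
    intro s hs
    obtain ⟨y, hy, rfl⟩ := Finset.mem_image.1 hs
    exact (hrep' y hy).1
  have h3 : (S \ R).card ≤ (S.offDiag.filter fun p => F p.1 = F p.2).card := by
    apply Finset.card_le_card_of_injOn (fun s => (s, rep (F s)))
    · intro s hs
      rw [Finset.mem_coe, Finset.mem_sdiff] at hs
      rw [Finset.mem_coe, Finset.mem_filter, Finset.mem_offDiag]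
      have h4 : F s ∈ S.image F := Finset.mem_image_of_mem F hs.1
      refine ⟨⟨hs.1, (hrep' _ h4).1, ?_⟩, (hrep' _ h4).2.symm⟩
      intro h5
      apply hs.2
      have h5' : s = rep (F s) := h5
      have h6 : rep (F s) ∈ R := Finset.mem_image_of_mem rep h4
      rwa [← h5'] at h6
    · intro s _ t _ hst
      exact (Prod.mk.inj hst).1
  have h4 : R.card ≤ (S.image F).card := Finset.card_image_le
  have h5 := Finset.card_sdiff_add_card_eq_card hRS
  omega

/-- Weights with few collisions. -/
lemma exists_weights (S : Finset (α → ℕ)) (hM : 2 * S.card ≤ M ^ k) (hM1 : 1 ≤ M) :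
    ∃ b : Fin k → α → Fin M,
      S.card ≤ 2 * (S.image (fun f => (fun j => ∑ x, f x * wt b x j : Fin k → ℕ))).card := by
  classical
  by_contra hcon
  push Not at hcon
  have hpos : 0 < M ^ k := by positivity
  have : NeZero M := ⟨by omega⟩
  set Q : (Fin k → α → Fin M) → ℕ := fun b =>
    (S.offDiag.filter fun p : (α → ℕ) × (α → ℕ) =>
      (fun j => ∑ x, p.1 x * wt b x j : Fin k → ℕ) = (fun j => ∑ x, p.2 x * wt b x j)).card
    with hQ
  -- each choice has many collisions
  have h1 : ∀ b : Fin k → α → Fin M, S.card * S.card + 1 ≤ M ^ k * Q b := by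
    intro b
    have h2 := hcon b
    have h3 := card_le_image_add S (fun f => (fun j => ∑ x, f x * wt b x j : Fin k → ℕ))
    have h4 : S.card ≤ (S.image (fun f => (fun j => ∑ x, f x * wt b x j : Fin k → ℕ))).card
        + Q b := h3
    have h5 : S.card + 1 ≤ 2 * Q b := by omega
    calc S.card * S.card + 1 ≤ S.card * (2 * Q b) := by nlinarith
      _ = 2 * S.card * Q b := by ring
      _ ≤ M ^ k * Q b := Nat.mul_le_mul_right _ hM
  -- double counting
  have h2 : ∑ b : Fin k → α → Fin M, Q b = ∑ p ∈ S.offDiag,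
      (univ.filter fun b : Fin k → α → Fin M =>
        (fun j => ∑ x, p.1 x * wt b x j : Fin k → ℕ) = (fun j => ∑ x, p.2 x * wt b x j)).card := by
    simp only [hQ, Finset.card_filter]
    rw [Finset.sum_comm]
  have h3 : M ^ k * ∑ b : Fin k → α → Fin M, Q b ≤
      S.offDiag.card * Fintype.card (Fin k → α → Fin M) := by
    rw [h2, Finset.mul_sum, ← smul_eq_mul (S.offDiag.card), ← Finset.sum_const]
    apply Finset.sum_le_sum
    intro p hp
    exact card_collide_le (Finset.mem_offDiag.1 hp).2.2
  have h4 : (S.card * S.card + 1) * Fintype.card (Fin k → α → Fin M) ≤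
      M ^ k * ∑ b : Fin k → α → Fin M, Q b := by
    rw [Finset.mul_sum, mul_comm, ← smul_eq_mul, ← Finset.card_univ, ← Finset.sum_const]
    exact Finset.sum_le_sum (fun b _ => h1 b)
  have h5 : 0 < Fintype.card (Fin k → α → Fin M) := Fintype.card_pos
  have h6 : S.offDiag.card ≤ S.card * S.card := by
    rw [Finset.offDiag_card]
    exact Nat.sub_le _ _
  have h7 : (S.card * S.card + 1) * Fintype.card (Fin k → α → Fin M) ≤
      (S.card * S.card) * Fintype.card (Fin k → α → Fin M) :=
    (h4.trans h3).trans (Nat.mul_le_mul_right _ h6)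
  have h8 := Nat.le_of_mul_le_mul_right h7 h5
  omega

/-- **Reduction of the alphabet.** -/
theorem exists_small (w : List α) {D : ℕ} (hD : D ≤ numSquares w) (hM : 2 * D ≤ M ^ k)
    (hk : 1 ≤ k) (hM1 : 1 ≤ M) :
    ∃ w' : List (Fin k), w'.length ≤ k * M * w.length ∧ D ≤ 2 * numSquares w' := by
  classical
  have hfin := squareClasses_finite w
  have hcard : numSquares w = hfin.toFinset.card := Set.ncard_eq_toFinset_card _ hfin
  obtain ⟨S, hS1, hS2⟩ := Finset.exists_subset_card_eq (hcard ▸ hD)
  obtain ⟨b, hb⟩ := exists_weights (k := k) (M := M) S (by rw [hS2]; exact hM) hM1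
  refine ⟨img (wt b) w, length_img_le _ ?_ w, ?_⟩
  · intro x j
    unfold wt
    have := (b j x).isLt
    omega
  · rw [hS2] at hb
    refine hb.trans (Nat.mul_le_mul_left _ ?_)
    unfold numSquares
    rw [← Set.ncard_coe_finset]
    apply Set.ncard_le_ncard _ (squareClasses_finite _)
    intro y hy
    rw [Finset.mem_coe, Finset.mem_image] at hy
    obtain ⟨f, hf, rfl⟩ := hy
    exact class_img (wt b) hk (fun x j => by unfold wt; omega)
      (hfin.mem_toFinset.1 (hS1 hf))

end Count

section Pad

variable {α : Type} [DecidableEq α]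

lemma numSquares_mono {w w' : List α} (h : w <:+: w') : numSquares w ≤ numSquares w' := by
  unfold numSquares
  apply Set.ncard_le_ncard _ (squareClasses_finite _)
  rintro f ⟨s, h1, h2, h3⟩
  exact ⟨s, h1.trans h, h2, h3⟩

lemma exists_pad (x : α) (w : List α) {n : ℕ} (hn : w.length ≤ n) :
    ∃ w' : List α, w'.length = n ∧ numSquares w ≤ numSquares w' := by
  refine ⟨w ++ List.replicate (n - w.length) x, ?_, numSquares_mono ⟨[], _, rfl⟩⟩
  rw [List.length_append, List.length_replicate]
  omega

end Pad

section Binom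

/-- recurrence of `(3m choose m)` -/
lemma choose_rec (m : ℕ) : (3 * (m + 1)).choose (m + 1) * (2 * (m + 1) * (2 * m + 1)) =
    (3 * m).choose m * (3 * (3 * m + 2) * (3 * m + 1)) := by
  have h1 := Nat.choose_mul_factorial_mul_factorial (show m + 1 ≤ 3 * (m + 1) by omega)
  have h2 := Nat.choose_mul_factorial_mul_factorial (show m ≤ 3 * m by omega)
  have e1 : 3 * (m + 1) - (m + 1) = 2 * m + 2 := by omega
  have e2 : 3 * m - m = 2 * m := by omega
  rw [e1] at h1
  rw [e2] at h2
  have f1 : (3 * (m + 1)).factorial = (3 * m + 3) * ((3 * m + 2) * ((3 * m + 1) *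
      (3 * m).factorial)) := by
    rw [show 3 * (m + 1) = 3 * m + 2 + 1 by ring, Nat.factorial_succ,
      show 3 * m + 2 = 3 * m + 1 + 1 by ring, Nat.factorial_succ, Nat.factorial_succ]
  have f2 : (2 * m + 2).factorial = (2 * m + 2) * ((2 * m + 1) * (2 * m).factorial) := by
    rw [show 2 * m + 2 = 2 * m + 1 + 1 by ring, Nat.factorial_succ, Nat.factorial_succ]
  have f3 : (m + 1).factorial = (m + 1) * m.factorial := Nat.factorial_succ m
  rw [f1, f2, f3, ← h2] at h1
  have hp : 0 < (m + 1) * m.factorial * (2 * m).factorial := by positivity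
  apply Nat.eq_of_mul_eq_mul_right hp
  linarith [h1, show (3 * (m + 1)).choose (m + 1) * (2 * (m + 1) * (2 * m + 1)) *
    ((m + 1) * m.factorial * (2 * m).factorial) = (3 * (m + 1)).choose (m + 1) *
    ((m + 1) * m.factorial) * ((2 * m + 2) * ((2 * m + 1) * (2 * m).factorial)) by ring,
    show (3 * m).choose m * (3 * (3 * m + 2) * (3 * m + 1)) *
    ((m + 1) * m.factorial * (2 * m).factorial) = (3 * m + 3) * ((3 * m + 2) * ((3 * m + 1) *
      ((3 * m).choose m * m.factorial * (2 * m).factorial))) by ring]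

/-- `(27/4)^m ≤ (3m + 1) (3m choose m)` -/
lemma pow_le_choose (m : ℕ) : (27 / 4 : ℝ) ^ m ≤ (3 * m + 1) * ((3 * m).choose m : ℝ) := by
  induction m with
  | zero => simp
  | succ m ih =>
    have h1 : ((3 * (m + 1)).choose (m + 1) : ℝ) * (2 * (m + 1) * (2 * m + 1)) =
        ((3 * m).choose m : ℝ) * (3 * (3 * m + 2) * (3 * m + 1)) := by
      exact_mod_cast choose_rec m
    set c := ((3 * m).choose m : ℝ) with hc
    set c' := ((3 * (m + 1)).choose (m + 1) : ℝ) with hc'
    have hc0 : 0 ≤ c := Nat.cast_nonneg _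
    have hm : (0 : ℝ) ≤ m := Nat.cast_nonneg _
    have hpos : (0 : ℝ) < 2 * (m + 1) * (2 * m + 1) := by positivity
    have h2 : (27 / 4 : ℝ) ^ (m + 1) * (2 * (m + 1) * (2 * m + 1)) ≤
        (3 * ((m + 1 : ℕ) : ℝ) + 1) * c' * (2 * (m + 1) * (2 * m + 1)) := by
      calc (27 / 4 : ℝ) ^ (m + 1) * (2 * (m + 1) * (2 * m + 1))
          = (27 / 4 : ℝ) ^ m * (27 / 4 * (2 * (m + 1) * (2 * m + 1))) := by ring
        _ ≤ ((3 * m + 1) * c) * (27 / 4 * (2 * (m + 1) * (2 * m + 1))) :=
            mul_le_mul_of_nonneg_right ih (by positivity)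
        _ ≤ c * ((3 * m + 4) * (3 * (3 * m + 2) * (3 * m + 1))) := by
            have : (0 : ℝ) ≤ c * (3 * m + 1) := by positivity
            nlinarith
        _ = (3 * ((m + 1 : ℕ) : ℝ) + 1) * (c * (3 * (3 * m + 2) * (3 * m + 1))) := by
            push_cast
            ring
        _ = (3 * ((m + 1 : ℕ) : ℝ) + 1) * c' * (2 * (m + 1) * (2 * m + 1)) := by
            rw [← h1]
            ring
    exact le_of_mul_le_mul_right h2 hpos

end Binom

end Pool.Agent.Y243.AbSq
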